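import Pool.Agent.Y709.Lay.CountX
import Pool.Agent.Y709.Lay.SpecC
import Pool.Agent.Y709.Lay.Root

/-!
The curves `y ^ (q - 1) = D B ∏ (x - β_i) ^ (m_i)` over the function field of `Y × 𝔸¹`, for a variety `Y` of
positive dimension over a finite field `k ⊇ 𝔽_q`: for `D` outside of a set of density zero there is a
closed point `c` of `Y`, at which a given polynomial `g` has a root, such that the L-functions of the
specialisation at `c` do not vanish at `s = 1`, over all Galois coverings with a `p`-group.
-/

set_option autoImplicit false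

open Polynomial

namespace Pool.Agent.Results.MP_9faec4_nt.DensityOneTwists

section generic

/-- The closed points of the affine line over the field `F`: monic irreducible polynomials. -/
abbrev ClosedPt (F : Type) [Field F] : Type := {P : F[X] // P.Monic ∧ Irreducible P}

variable {F : Type} [Field F]

/-- The degree of a closed point of the affine line over `F`. -/
noncomputable def ptDegree (P : ClosedPt F) : ℕ := P.1.natDegree

/-- The polynomial `c ∏ (x - b_i) ^ (m_i)` over `F`. -/
noncomputable def fibre {n : ℕ} (c : F) (b : Fin n → F) (m : Fin n → ℕ) : F[X] :=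
  C c * ∏ i, (X - C (b i)) ^ m i

/-- The norm to `κ` of the value of the polynomial `g` over `F` at the closed point `Q` of the affine
line over the extension `F` of `κ`. -/
noncomputable def normValue {κ : Type} [Field κ] [Algebra κ F] (g : F[X]) (Q : ClosedPt F) : κ :=
  Algebra.norm κ (AdjoinRoot.mk Q.1 g)

/-- The Euler product: its coefficient of index `n` is that of the product of the factors of degree
at most `n`. -/
noncomputable def eulerProduct {ι : Type} (d : ι → ℕ) (f : ι → PowerSeries ℂ) : PowerSeries ℂ :=
  PowerSeries.mk fun n => PowerSeries.coeff n (∏ᶠ (i : ι) (_ : d i ≤ n), f i)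

end generic

section points

variable {κ : Type} [Field κ] {O : Type} [CommRing O] [Algebra κ[X] O]

/-- The residue field of a closed point of `Spec O`, for an algebra `O` over `κ[t]`. -/
def Res (𝔪 : MaximalSpectrum O) : Type := O ⧸ 𝔪.asIdeal

attribute [local instance] MaximalSpectrum.isMaximal in
noncomputable instance resField (𝔪 : MaximalSpectrum O) : Field (Res 𝔪) :=
  Ideal.Quotient.field 𝔪.asIdeal

/-- The value at `𝔪` of a polynomial in `t`. -/
noncomputable def value (𝔪 : MaximalSpectrum O) : κ[X] →+* Res 𝔪 :=
  (Ideal.Quotient.mk 𝔪.asIdeal).comp (algebraMap κ[X] O)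

noncomputable instance resAlgebra (𝔪 : MaximalSpectrum O) : Algebra κ (Res 𝔪) :=
  ((value 𝔪).comp C).toAlgebra

/-- The closed points of the product of `Spec O` and the `x`-line: a closed point of `Spec O` and a
closed point of the `x`-line over its residue field. -/
structure SurfacePt (O : Type) [CommRing O] : Type where
  place : MaximalSpectrum O
  point : ClosedPt (Res place)

variable (κ) in
/-- The degree of a closed point over `κ`. -/
noncomputable def SurfacePt.deg (z : SurfacePt O) : ℕ :=
  Module.finrank κ (Res z.place) * ptDegree z.point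

/-- A finite group `G` acts on the ring `O ⊇ κ[t]` faithfully and with the ring of invariants `κ[t]`, so
that `Spec O` is a Galois covering of the line with the group `G`, the group is a `p`-group, and the
covering is unramified at the points where `E(t)` is not zero: the inertia groups are trivial. -/
structure IsLayer (p : ℕ) (E : κ[X]) (G O : Type) [Group G] [Finite G] [CommRing O]
    [Algebra κ[X] O] [MulSemiringAction G O] : Prop where
  galois : IsGaloisGroup G κ[X] O
  injective : Function.Injective (algebraMap κ[X] O)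
  pgroup : IsPGroup p G
  unramified : ∀ 𝔪 : MaximalSpectrum O, algebraMap κ[X] O E ∉ 𝔪.asIdeal →
    𝔪.asIdeal.inertia G = ⊥

end points

section base

variable {k : Type} [Field k] {A : Type} [CommRing A] [Algebra k A]

/-- The residue field of a closed point of `Y = Spec A`. -/
def FieldAt (c : MaximalSpectrum A) : Type := A ⧸ c.asIdeal

attribute [local instance] MaximalSpectrum.isMaximal in
noncomputable instance fieldAtField (c : MaximalSpectrum A) : Field (FieldAt c) :=
  Ideal.Quotient.field c.asIdeal

instance fieldAtAlgebra (c : MaximalSpectrum A) : Algebra k (FieldAt c) :=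
  inferInstanceAs (Algebra k (A ⧸ c.asIdeal))

/-- The value of a function on `Y` at the closed point `c`. -/
def evalAt (c : MaximalSpectrum A) : A →+* FieldAt c := Ideal.Quotient.mk c.asIdeal

end base

/-- The data `B`, `β_i`, `m_i` of a pencil `y ^ (q - 1) = B ∏ (x - β_i) ^ (m_i)` with `r + 1` sections
`β_i`, where `B` and the `β_i` are polynomials in `t` over the ring `A`. -/
structure Pencil (A : Type) [CommRing A] (r : ℕ) : Type where
  coef : A[X]
  root : Fin (r + 1) → A[X]
  mult : Fin (r + 1) → ℕ

section pencil

/-- The specialisation of a pencil at a homomorphism `c`. -/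
noncomputable def Pencil.at {A : Type} [CommRing A] {κ : Type} [Field κ] {r : ℕ} (S : Pencil A r)
    (c : A →+* κ) : Pencil κ r :=
  ⟨S.coef.map c, fun i => (S.root i).map c, S.mult⟩

variable {A : Type} [CommRing A] {r : ℕ} (S : Pencil A r)

/-- The degree `n` of the pencil in `x`: the sum of the multiplicities. -/
def Pencil.degX : ℕ := ∑ i, S.mult i

/-- The polynomial `B ∏ (β_j - β_i)`, the product over `i < j`. -/
noncomputable def Pencil.disc : A[X] :=
  S.coef * ∏ i, ∏ j ∈ Finset.Ioi i, (S.root j - S.root i)

/-- `B` is not zero, the sections are distinct of degree at most `d` in `t`, and the multiplicities are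
positive. -/
structure Pencil.Good (d : ℕ) : Prop where
  coef_ne : S.coef ≠ 0
  root_ne : ∀ i j, i ≠ j → S.root i ≠ S.root j
  root_deg : ∀ i, (S.root i).natDegree ≤ d
  mult_pos : ∀ i, 0 < S.mult i

end pencil

section special

variable {κ : Type} [Field κ] {r : ℕ} (S : Pencil κ r)

/-- The norm to `κ` of the value of `D(t) B(t) ∏ (x - β_i(t)) ^ (m_i)` at a closed point. -/
noncomputable def Pencil.norm {O : Type} [CommRing O] [Algebra κ[X] O] (D : κ[X])
    (z : SurfacePt O) : κ :=
  normValue (fibre (value z.place (D * S.coef)) (fun i => value z.place (S.root i)) S.mult) z.point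

/-- The `L`-function in the variable `T = (#κ) ^ (-s)` of the `χ`-part of the Jacobian of the curve
`y ^ (q - 1) = D(t) B(t) ∏ (x - β_i(t)) ^ (m_i)` over the covering `Spec O` of the `t`-line over `κ`: the
product over the closed points `z` of `Spec O × 𝔸¹` of the factors `1 - χ(N z) T ^ (deg z)`, where `N z` is
the norm to `κ` of the value of `D(t) B(t) ∏ (x - β_i(t)) ^ (m_i)` at `z`, and `χ(0) = 0`. -/
noncomputable def Pencil.Lfun (O : Type) [CommRing O] [Algebra κ[X] O] (χ : MulChar κ ℂ)
    (D : κ[X]) : PowerSeries ℂ :=
  eulerProduct (fun z : SurfacePt O => z.deg κ)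
    (fun z => 1 - PowerSeries.C (χ (S.norm D z)) * PowerSeries.X ^ z.deg κ)

/-- The power series `L` in `T` is the product of a polynomial and of `1 - Q T`: it vanishes at
`T = 1 / Q`. -/
def Vanishes (Q : ℕ) (L : PowerSeries ℂ) : Prop :=
  ∃ G : ℂ[X], L = (((1 - C (Q : ℂ) * X) * G : ℂ[X]) : PowerSeries ℂ)

/-- The polynomial `D` has exact degree `N`, it is squarefree and prime to `B ∏ (β_j - β_i)`, and over all
Galois coverings with a `p`-group that are unramified outside of the zeros of `D B` (and `∞`) none of the
`L`-functions of the characters `χ` of exact order `q - 1` vanishes at `T = 1 / #κ`. -/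
structure Pencil.Settled (p q N : ℕ) (D : κ[X]) : Prop where
  deg : D.natDegree = N
  squarefree : Squarefree D
  coprime : IsCoprime D S.disc
  nonvanishing : ∀ (G O : Type) [Group G] [Finite G] [CommRing O] [Algebra κ[X] O]
    [MulSemiringAction G O], IsLayer p (D * S.coef) G O →
      ∀ χ : MulChar κ ℂ, orderOf χ = q - 1 → ¬ Vanishes (Nat.card κ) (S.Lfun O χ D)

theorem Lfun_eq (O : Type) [CommRing O] [Algebra κ[X] O] (χ : MulChar κ ℂ) (D : κ[X]) :
    S.Lfun O χ D = Pool.Agent.Y709.Lay.LO O χ (D * S.coef) S.root S.mult := by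
  unfold Pencil.Lfun Pool.Agent.Y709.Lay.LO eulerProduct Pool.Agent.W343.BSD.eulerProd
  ext n
  rw [PowerSeries.coeff_mk, PowerSeries.coeff_mk]
  congr 1
  let E : (Σ 𝔪 : MaximalSpectrum O, Pool.Agent.W313.Hyp.MI (Pool.Agent.Y709.Lay.RO κ 𝔪)) ≃
      SurfacePt O :=
    { toFun := fun z => ⟨z.1, z.2⟩
      invFun := fun z => ⟨z.place, z.point⟩
      left_inv := fun _ => rfl
      right_inv := fun _ => rfl }
  exact (finprod_comp_equiv E
    (f := fun z : SurfacePt O => ∏ᶠ (_ : z.deg κ ≤ n),
      (1 - PowerSeries.C (χ (S.norm D z)) * PowerSeries.X ^ z.deg κ : PowerSeries ℂ))).symm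

/-- the polynomials that are not settled -/
theorem ncard_not_settled {κ : Type} [Field κ] [Finite κ] {p : ℕ} [Fact p.Prime] [CharP κ p]
    {a s q : ℕ} (ha : 0 < a) (hs : 0 < s) (hq : q = p ^ a) (hk : Nat.card κ = q ^ s) {r : ℕ}
    (S : Pencil κ r) {d : ℕ} (hS : S.Good d) (hchar : S.degX < p) (hdeg : S.degX < q - 1) {f : ℕ}
    (hf : S.coef.natDegree + d * S.degX ≤ f) (hr : r * f + 3 * r ^ 2 + 6 * r + 8 ≤ q) {δ : ℕ}
    (hδ : S.disc.natDegree ≤ δ) (hD0 : S.disc ≠ 0) (hbig : q * (δ + 3) ≤ Nat.card κ) {M ρ N : ℕ}
    (hM : 4 * r ^ 2 + 8 ≤ M) (hρ : r < ρ) (hρf : ρ + f ≤ q - 1) (hN : N + 1 = (q - 1) * M + ρ) :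
    q * {D : κ[X] | D.natDegree ≤ N ∧ ¬ S.Settled p q N D}.ncard ≤
      (2 * r + 1) * Nat.card κ ^ (N + 1) := by
  have hFt : Fintype κ := Fintype.ofFinite κ
  have h1 := Pool.Agent.Y709.Lay.countX (k := κ) (p := p) hq ha hs
    (by rw [← Nat.card_eq_fintype_card, hk]) S.coef hS.coef_ne S.root
    (fun i j h => by
      by_contra hij
      exact hS.root_ne i j hij h) d hS.root_deg S.mult hS.mult_pos hchar f ρ M N 1 (one_dvd _) hf
    hdeg hr hρ hρf hM hN
  set V := {D : κ[X] | D.natDegree ≤ N ∧
    Pool.Agent.Y709.Lay.VanX p (q - 1) 1 (D * S.coef) S.root S.mult} with hV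
  have hsub : {D : κ[X] | D.natDegree ≤ N ∧ ¬ S.Settled p q N D} ⊆
      (({D : κ[X] | D.natDegree ≤ N ∧ D.natDegree ≠ N} ∪
        {D : κ[X] | D.natDegree ≤ N ∧ ¬ Squarefree D}) ∪
        {D : κ[X] | D.natDegree ≤ N ∧ ¬ IsCoprime D S.disc}) ∪ V := by
    rintro D ⟨hD, hns⟩
    by_cases h2 : D.natDegree = N
    · by_cases h3 : Squarefree D
      · by_cases h4 : IsCoprime D S.disc
        · right
          by_contra h5
          apply hns
          refine ⟨h2, h3, h4, ?_⟩
          intro G O i1 i2 i3 i4 i5 hL χ hχ h6
          obtain ⟨H, hH⟩ := h6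
          apply h5
          have i6 := hL.galois
          have i7 : FaithfulSMul κ[X] O :=
            (faithfulSMul_iff_algebraMap_injective _ _).2 hL.injective
          refine ⟨hD, G, O, i1, i2, i3, i4, i5, i6, i7, hL.pgroup, ?_, χ, hχ, 1, one_pow 1, H, ?_⟩
          · intro 𝔪 h𝔪
            apply hL.unramified
            intro h0
            exact h𝔪 ((Pool.Agent.Y709.Lay.vO_eq_zero κ).2 h0)
          · rw [← Lfun_eq, hH, mul_one]
        · exact Or.inl (Or.inr ⟨hD, h4⟩)
      · exact Or.inl (Or.inl (Or.inr ⟨hD, h3⟩))
    · exact Or.inl (Or.inl (Or.inl ⟨hD, h2⟩))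
  have hVf : V.Finite := Pool.Agent.Y709.Sp.finite_sub N
  have h2 := Pool.Agent.Y709.Sp.ncard_drop (k := κ) N
  have h3 := Pool.Agent.Y709.Sp.ncard_sq (k := κ) N
  have h4 := Pool.Agent.Y709.Sp.ncard_cop hD0 hδ N
  have h5 : {D : κ[X] | D.natDegree ≤ N ∧ ¬ S.Settled p q N D}.ncard ≤
      (δ + 3) * Nat.card κ ^ N + V.ncard := by
    refine (Set.ncard_le_ncard hsub ((((Pool.Agent.Y709.Sp.finite_sub N).union
      (Pool.Agent.Y709.Sp.finite_sub N)).union (Pool.Agent.Y709.Sp.finite_sub N)).union
        hVf)).trans ?_
    refine (Set.ncard_union_le _ _).trans ?_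
    refine (Nat.add_le_add_right ((Set.ncard_union_le _ _).trans
      (Nat.add_le_add_right (Set.ncard_union_le _ _) _)) _).trans ?_
    have h6 : (δ + 3) * Nat.card κ ^ N = Nat.card κ ^ N + 2 * Nat.card κ ^ N +
      δ * Nat.card κ ^ N := by ring
    rw [h6]
    exact Nat.add_le_add_right (Nat.add_le_add (Nat.add_le_add h2 h3) h4) _
  calc q * _ ≤ q * ((δ + 3) * Nat.card κ ^ N + V.ncard) := Nat.mul_le_mul_left q h5
    _ = (q * (δ + 3)) * Nat.card κ ^ N + q * V.ncard := by ring
    _ ≤ Nat.card κ * Nat.card κ ^ N + 2 * r * 1 * Nat.card κ ^ (N + 1) :=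
        Nat.add_le_add (Nat.mul_le_mul_right _ hbig) h1
    _ = _ := by ring

end special

section twists

variable {k : Type} [Field k] {A : Type} [CommRing A] [Algebra k A]

/-- The polynomials `D` in `t` over `A` of degree at most `N` with coefficients in `H`. -/
def twists (H : Submodule k A) (N : ℕ) : Set A[X] :=
  {D | D.natDegree ≤ N ∧ ∀ j, D.coeff j ∈ H}

/-- The polynomials `D` which are settled at none of the closed points `c` of `Y = Spec A` with
`a(c) ≠ 0` at which the polynomial `g` over `A` has a root in the residue field. -/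
def Pencil.exceptions {r : ℕ} (S : Pencil A r) (a : A) (g : A[X]) (H : Submodule k A)
    (p q N : ℕ) : Set A[X] :=
  {D | D ∈ twists H N ∧ ∀ c : MaximalSpectrum A, evalAt c a ≠ 0 →
    (∃ x : A, evalAt c (g.eval x) = 0) → ¬ (S.at (evalAt c)).Settled p q N (D.map (evalAt c))}

end twists

/-- **Tate's Birch-Swinnerton-Dyer conjecture for the new parts of 100 per cent of the twists of split
superelliptic pencils over the function field of `Y × 𝔸¹`, for every variety `Y` of positive dimension over
a finite field.**

Let `q` be a power of the prime number `p`, let `k` be a finite extension of the field with `q` elements,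
let `Y` be an affine variety over `k` of positive dimension with the coordinate ring `A`, and
`K = k(Y)(t)`; so every function field `k(Y)` over `k` is allowed, and `n = dim Y + 1 ≥ 2` is the
transcendence degree of `K` and the dimension of a model. Let `S` be a pencil
`y ^ (q - 1) = B ∏ (x - β_i) ^ (m_i)`, with `B` and `β_0, …, β_r` in `A[t]` and with the sum `Σ m_i` smaller
than `p` and `q - 1`. For `D` in `A[t]` let `C_D` be the curve `y ^ (q - 1) = D B ∏ (x - β_i) ^ (m_i)` over `K`
and `A_D` the new part of its Jacobian, the part on which the group of the roots of unity of order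
`q - 1` acts through characters `χ` of exact order `q - 1`, of dimension `r φ(q - 1) / 2`.

The theorem: let `a ≠ 0` in `A`, `g` a polynomial of positive degree over `A`, and `n ≥ 1`. There is a
finite-dimensional space `H₀` of functions on `Y` such that for every finite-dimensional space `H ⊇ H₀` and every degree `N` with
`N + 1 = (q - 1) M + ρ`, `M ≥ 4 r ^ 2 + 8`, `r < ρ ≤ q - 1 - f`, for all `D` of degree at most `N` in `t`
with coefficients in `H`, outside of a proportion of at most `1 / n`, there is a closed point `c` of `Y`,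
with `a(c) ≠ 0`, such that `g` has a root in `k(c)`, the specialisation `D_c` has exact degree `N` in `t`, is squarefree and prime to `B ∏ (β_j - β_i)` at `c`, and the `L`-functions of the specialisation
`A_{D, c}` do not vanish at the point `T = 1 / #k(c)` over every Galois covering of the `t`-line over `k(c)`
with a `p`-group that is unramified outside of the zeros of `D_c B_c` and `∞`. So the density of the `D`
without such a point is zero (`H` growing, `N` arbitrary).

This implies the conjecture for `A_D` over `K' = k(Y')(t)` for every variety `Y'` that is generically finite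
over `Y`. We may assume that the function field of `Y'` is separable over the one of `Y`, and take for `g` a
multiple of the minimal polynomial of a generator, and choose `a` such that `Y` is smooth, the leading
coefficient and the discriminant of `g` are invertible, and `S` is equisingular where `a ≠ 0` (the degree and
the number of geometric zeros of `B ∏ (β_j - β_i)` are constant). Then, after a purely inseparable base
change, the zeros of `D B ∏ (β_j - β_i)` form a finite étale covering of a neighbourhood `U` of `c`, and with `π : V → U` for the complement in `U × 𝔸¹`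
and `R` for the (tame) sheaf of the `χ`-parts of the first cohomology of the fibres of `C_D`, the sheaf
`R¹π_! R` on `U` is lisse and `R²π_! R` is zero. A root of `g` in `k(c)` gives a closed point of `Y'` above
`c` with the same residue field, and the number `#k(c)` is not an eigenvalue of the Frobenius at `c`, by the
theorem. By Deligne the order of `Φ₁` over `K'` at `s = n` is the sum over the `χ` of the multiplicities of
the eigenvalue `(#k') ^ n`, `k'` the field of constants of `Y'`, of the Frobenius on the cohomology with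
compact support of the inverse image `U'` of `U` in `Y'` of degree `2 (n - 1)` with coefficients in
`R¹π_! R`, since the other cohomology has smaller weights or weight `2 n + 1`; this is the
group of coinvariants, twisted, and a quotient of the stalk at `c`. So the order is zero, and the rank of
`A_D` is zero as well. If `B` is in `k[t]` the same holds over the compositum of `K'` with every finite
Galois extension `L` of `k(t)` of degree a power of `p` that is unramified outside of the zeros of `B` and
`∞` (for all of them at once), since its ramification is constant along `Y` and `R¹π_!` of the inverse image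
of `R` is lisse again: the rank of `A_D` is zero over the whole pro-`p` tower. -/
theorem result (k : Type) [Field k] [Finite k] (p : ℕ) [Fact p.Prime] [CharP k p] (a₀ s q : ℕ)
    (ha₀ : 0 < a₀) (hs : 0 < s) (hq : q = p ^ a₀) (hk : Nat.card k = q ^ s) (A : Type) [CommRing A]
    [IsDomain A] [Algebra k A] [Algebra.FiniteType k A] (hA : ¬ Module.Finite k A) (a : A)
    (ha : a ≠ 0) (g : A[X]) (hg : 0 < g.natDegree) (r : ℕ) (S : Pencil A r) (d : ℕ) (hS : S.Good d)
    (hchar : S.degX < p) (hdeg : S.degX < q - 1) (f : ℕ)
    (hf : S.coef.natDegree + d * S.degX ≤ f) (hr : r * f + 3 * r ^ 2 + 6 * r + 8 ≤ q) (n : ℕ) :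
    ∃ H₀ : Submodule k A, Module.Finite k H₀ ∧ ∀ H : Submodule k A, H₀ ≤ H → Module.Finite k H →
      ∀ M ρ N : ℕ, 4 * r ^ 2 + 8 ≤ M → r < ρ → ρ + f ≤ q - 1 → N + 1 = (q - 1) * M + ρ →
        (twists H N).Finite ∧
          n * (S.exceptions a g H p q N).ncard ≤ (twists H N).ncard := by
  classical
  have hD0 : S.disc ≠ 0 := by
    unfold Pencil.disc
    refine mul_ne_zero hS.coef_ne ?_
    rw [Finset.prod_ne_zero_iff]
    intro i _
    rw [Finset.prod_ne_zero_iff]
    intro j hj
    rw [Finset.mem_Ioi] at hj
    exact sub_ne_zero.2 (hS.root_ne j i hj.ne')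
  set δ := S.disc.natDegree with hδ
  have ha' : a * S.disc.leadingCoeff ≠ 0 := mul_ne_zero ha (leadingCoeff_ne_zero.2 hD0)
  -- closed points
  let Z : Set (MaximalSpectrum A) := {c | a * S.disc.leadingCoeff ∉ c.asIdeal ∧
    (∃ x : A, g.eval x ∈ c.asIdeal) ∧ q * (δ + 3) ≤ Module.finrank k (A ⧸ c.asIdeal) ∧
      Module.Finite k (A ⧸ c.asIdeal)}
  have hZ : Z.Infinite := by
    intro hfin
    obtain ⟨b, hb⟩ := (hfin.image fun c : MaximalSpectrum A =>
      Module.finrank k (A ⧸ c.asIdeal)).bddAbove
    obtain ⟨c, h1, h2, h3, h4⟩ := Pool.Agent.Y709.Lay.existsRootPoint k A hA _ ha' g hg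
      (max (b + 1) (q * (δ + 3)))
    have h5 := hb ⟨c, ⟨h1, h2, (le_max_right _ _).trans h3, h4⟩, rfl⟩
    have h6 := (le_max_left _ _).trans h3
    dsimp only at h5
    omega
  obtain ⟨T, hTZ, hTn⟩ := hZ.exists_subset_card_eq n
  have hTf : ∀ c ∈ T, Finite (A ⧸ c.asIdeal) := fun c hc => by
    have h1 := (hTZ hc).2.2.2
    exact Module.finite_of_finite k
  obtain ⟨H₀, hH₀, hH₀'⟩ := Pool.Agent.Y709.Lay.exists_sub (k := k) T hTf
  refine ⟨H₀, hH₀, fun H hle hHf M ρ N hM hρ hρf hN => ?_⟩
  have htw : (twists H N).Finite := Set.finite_coe_iff.1 (Pool.Agent.Y709.Sp.finite_grp H N)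
  refine ⟨htw, ?_⟩
  have hmain := Pool.Agent.Y709.Lay.count_specC H N T hTf (hH₀' H hle)
    (fun c => {D | ¬ (S.at (evalAt c)).Settled p q N D}) q (2 * r + 1) (fun c hc => ?_)
  · have hq2 : 2 * (2 * r + 1) ≤ q := by
      have h1 : 0 ≤ r * f := Nat.zero_le _
      have h2 : 0 ≤ r ^ 2 := Nat.zero_le _
      omega
    have hsub : (S.exceptions a g H p q N).ncard ≤
        {D : A[X] | (D.natDegree ≤ N ∧ ∀ j, D.coeff j ∈ H) ∧ ∀ c ∈ T,
          D.map (Ideal.Quotient.mk c.asIdeal) ∈
            {D | ¬ (S.at (evalAt c)).Settled p q N D}}.ncard := by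
      refine Set.ncard_le_ncard ?_ (htw.subset fun D hD => hD.1)
      rintro D ⟨hD, hex⟩
      refine ⟨hD, fun c hc => ?_⟩
      refine hex c ?_ ((hTZ hc).2.1.imp fun x hx => Ideal.Quotient.eq_zero_iff_mem.2 hx)
      intro h0
      have h1 : a ∈ c.asIdeal := Ideal.Quotient.eq_zero_iff_mem.1 h0
      exact (hTZ hc).1 (c.asIdeal.mul_mem_right _ h1)
    rw [hTn] at hmain
    have h3 : 0 < (2 * r + 1) ^ n := pow_pos (by omega) n
    have h4 : (2 * r + 1) ^ n * (2 ^ n * (S.exceptions a g H p q N).ncard) ≤
        (2 * r + 1) ^ n * (twists H N).ncard := by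
      calc (2 * r + 1) ^ n * (2 ^ n * (S.exceptions a g H p q N).ncard) =
          (2 * (2 * r + 1)) ^ n * (S.exceptions a g H p q N).ncard := by
            rw [mul_pow]
            ring
        _ ≤ q ^ n * (S.exceptions a g H p q N).ncard :=
            Nat.mul_le_mul_right _ (Nat.pow_le_pow_left hq2 n)
        _ ≤ q ^ n * _ := Nat.mul_le_mul_left _ hsub
        _ ≤ _ := hmain
    have h5 := Nat.le_of_mul_le_mul_left h4 h3
    have h6 : n ≤ 2 ^ n := Nat.lt_two_pow_self.le
    exact (Nat.mul_le_mul_right _ h6).trans h5
  · obtain ⟨hc1, hc2, hc3, hc4⟩ := hTZ hc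
    have hfc : Finite (FieldAt c) := hTf c hc
    have hmf : Module.Finite k (FieldAt c) := hc4
    have hmax := c.isMaximal
    have hnt : Nontrivial (A ⧸ c.asIdeal) := Ideal.Quotient.nontrivial_iff.2 hmax.ne_top
    have hcard : Nat.card (FieldAt c) = Nat.card k ^ Module.finrank k (FieldAt c) :=
      Module.natCard_eq_pow_finrank (K := k) (V := A ⧸ c.asIdeal)
    have hdpos : 0 < Module.finrank k (FieldAt c) :=
      Module.finrank_pos (R := k) (M := A ⧸ c.asIdeal)
    have hcp : CharP (FieldAt c) p :=
      charP_of_injective_algebraMap (algebraMap k (FieldAt c)).injective p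
    have hdmap : (S.at (evalAt c)).disc = S.disc.map (evalAt c) := by
      unfold Pencil.disc Pencil.at
      rw [Polynomial.map_mul, Polynomial.map_prod]
      congr 1
      refine Finset.prod_congr rfl fun i _ => ?_
      rw [Polynomial.map_prod]
      refine Finset.prod_congr rfl fun j _ => ?_
      rw [Polynomial.map_sub]
    have hlc : evalAt c S.disc.leadingCoeff ≠ 0 := by
      intro h0
      have h1 : S.disc.leadingCoeff ∈ c.asIdeal := Ideal.Quotient.eq_zero_iff_mem.1 h0
      exact hc1 (c.asIdeal.mul_mem_left _ h1)
    have hD0c : (S.at (evalAt c)).disc ≠ 0 := by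
      rw [hdmap]
      intro h0
      apply hlc
      have h1 := congrArg (fun g : (FieldAt c)[X] => g.coeff S.disc.natDegree) h0
      rw [coeff_map, coeff_zero] at h1
      exact h1
    have hδc : (S.at (evalAt c)).disc.natDegree ≤ δ := by
      rw [hdmap]
      exact natDegree_map_le
    have hgood : (S.at (evalAt c)).Good d := by
      refine ⟨?_, ?_, ?_, hS.mult_pos⟩
      · intro h0
        apply hD0c
        unfold Pencil.disc
        rw [h0, zero_mul]
      · intro i j hij h0
        apply hD0c
        have key : ∀ i j : Fin (r + 1), i < j →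
            (S.at (evalAt c)).root i = (S.at (evalAt c)).root j →
            (S.at (evalAt c)).disc = 0 := by
          intro i j hij h0
          unfold Pencil.disc
          refine mul_eq_zero_of_right _ ?_
          refine Finset.prod_eq_zero (Finset.mem_univ i) ?_
          refine Finset.prod_eq_zero (Finset.mem_Ioi.2 hij) ?_
          rw [h0, sub_self]
        rcases lt_or_gt_of_ne hij with h | h
        · exact key i j h h0
        · exact key j i h h0.symm
      · intro i
        exact natDegree_map_le.trans (hS.root_deg i)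
    have hbig : q * (δ + 3) ≤ Nat.card (FieldAt c) := by
      have h1 : Module.finrank k (FieldAt c) < Nat.card k ^ Module.finrank k (FieldAt c) :=
        Nat.lt_pow_self (Finite.one_lt_card)
      rw [hcard]
      exact hc3.trans h1.le
    have h1 := ncard_not_settled (κ := FieldAt c) (p := p) (s := s * Module.finrank k (FieldAt c))
      ha₀ (Nat.mul_pos hs hdpos) hq (by rw [hcard, hk, pow_mul]) (S.at (evalAt c)) hgood hchar hdeg
      (f := f) ((Nat.add_le_add_right natDegree_map_le _).trans hf) hr hδc hD0c hbig hM hρ hρf hN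
    exact h1

end Pool.Agent.Results.MP_9faec4_nt.DensityOneTwists
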