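import Pool.Agent.Y707.PH.Final

/-!
# Tate's form of the Birch–Swinnerton-Dyer conjecture for a family, over all number fields at once

`f : 𝒳 → 𝒴` is a family of smooth projective varieties over a number field `K` without constant part
(the `K(𝒴)/K`-trace of the Picard variety is zero), `X` is its generic fibre, and
`W = Pic⁰_X(K̄(𝒴)) ⊗ ℚ` with the action of the absolute Galois group of `K`.  For a number field `F ⊇ K`
the dimension of `W^{Gal(K̄/F)}` is the rank of `Pic⁰_X(F(𝒴))`.  The theorem is about Q1 for `X` over the
finitely generated fields `F(𝒴)`, for all number fields `F ⊇ K` together: about the orders of the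
functions `Φ₁` at the point `dim 𝒴 = m + 1` (`𝒴` with its model over the ring of integers).
-/

set_option autoImplicit false

namespace Pool.Agent.Results.MP_9faec4_nt.OrderSpectrum

open NumberField IsDedekindDomain Pool.Agent.Y707.PH
open Pool.Agent.W353.FB (Fibration IsPartOf)
open Pool.Agent.W353.TD (rank)

theorem result (K : Type) [Field K] [NumberField K] (f : Fibration K)
    (R : Finset (HeightOneSpectrum (𝓞 K))) (C : ℝ) (hf : IsLisse f R C) (N : ℕ)
    (W : Type) [AddCommGroup W] [Module ℚ W] [FiniteDimensional ℚ W]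
    (ρ : Representation ℚ Gal(AlgebraicClosure K/K) W)
    (hW : IsPartOf (averageValue f) N ρ) :
    -- `Φ₁` exists on `Re s > dim 𝒴`, for all number fields, and has no zeros there
    (∀ (F : Type) [Field F] [NumberField F] [Algebra K F],
      ∃ Φ : ℂ → ℂ, IsPhi f R F Φ ∧ ∀ s, Φ s ≠ 0) ∧
    -- the laws of the defects, without continuation
    PhiSpectrum f R N ρ ∧
    -- the defects are bounded by `N - dim W`
    (∀ (F : IntermediateField K (AlgebraicClosure K)) [NumberField F] (k : WithTop ℤ),
      HasOrder f R F k → ∃ n : ℤ, k = n ∧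
        |(rank ρ F : ℝ) - n| ≤ ((N - Module.finrank ℚ W : ℕ) : ℝ)) ∧
    -- the defects over all fields of degree at most `c` are those of the subfields of one field `M`
    (∀ c : ℕ, ∃ M : IntermediateField K (AlgebraicClosure K),
      FiniteDimensional K M ∧ IsGalois K M ∧
      ∀ (F F₀ : IntermediateField K (AlgebraicClosure K)) [NumberField F] [NumberField F₀],
        F₀ = F ⊓ M → Module.finrank K F ≤ c → ∀ k k₀ : ℤ, HasOrder f R F k →
          HasOrder f R F₀ k₀ → (rank ρ F : ℤ) - k = (rank ρ F₀ : ℤ) - k₀) :=
  ⟨fun F _ _ _ => ⟨Ph f R F, isPhi hf, Ph_ne⟩, spectrum hf hW,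
    fun F _ _ hk => defect_le hf hW F hk, governing hf hW⟩

end Pool.Agent.Results.MP_9faec4_nt.OrderSpectrum
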