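import Pool.Agent.Y707.RX.Glue

/-!
# Tate's form of the Birch–Swinnerton-Dyer conjecture under regular extensions of the base field

`f` and `g` are families of smooth projective varieties, over the bases `𝒴` and `𝒵`, over a number
field `K`, with generic fibres `X` over `K(𝒴)` and `X'` over `K(𝒵)`; the main case is a smooth morphism
`𝒵 → 𝒴` with geometrically connected fibres and the pull-back `g` of `f`.  Then `K(𝒵)` is a regular
extension of `K(𝒴)`, and `X'` is the base change of `X`.  The function `Φ₁` of `X` over `F(𝒴)`, for a
number field `F ⊇ K`, is considered at `s = dim 𝒴`, and that of `X'` over `F(𝒵)` at `s = dim 𝒵`.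
The constant part of `X` may be nonzero.
-/

set_option autoImplicit false

namespace Pool.Agent.Results.MP_9faec4_nt.RegularExtensions

open NumberField IsDedekindDomain Pool.Agent.Y707.RX
open Pool.Agent.Y707.PH (averageValue)
open Pool.Agent.W353.FB (Fibration IsPartOf)
open Pool.Agent.W353.TD (rank)

theorem result (K : Type) [Field K] [NumberField K]
    (R : Finset (HeightOneSpectrum (𝓞 K))) (C : ℝ)
    (W : Type) [AddCommGroup W] [Module ℚ W] [FiniteDimensional ℚ W]
    (ρ : Representation ℚ Gal(AlgebraicClosure K/K) W) :
    -- the fibre averages of `f` and `g` differ by the traces of the Frobenius on `W`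
    (∀ f g : Fibration K, IsSmoothFamily f R C → IsSmoothFamily g R C →
      IsBounded (differenceValue f g) R C →
      IsPartOf (differenceValue f g) (Module.finrank ℚ W) ρ →
      ∀ (F : IntermediateField K (AlgebraicClosure K)) [NumberField F] (k : ℤ),
        Continues g R F (k + rank ρ F) ↔ Continues f R F k) ∧
    -- the fibre averages of `g` are the traces of the Frobenius on `W`, with the opposite sign
    (∀ g : Fibration K, IsSmoothFamily g R C → IsBounded (averageValue g) R C →
      IsPartOf (averageValue g) (Module.finrank ℚ W) ρ →
      ∀ (F : IntermediateField K (AlgebraicClosure K)) [NumberField F],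
        Continues g R F (rank ρ F)) :=
  ⟨fun _ _ hf hg hb hW F _ k => invariance hf hg hb hW F k,
    fun _ hg hb hW F _ => full hg hb hW F⟩

end Pool.Agent.Results.MP_9faec4_nt.RegularExtensions
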